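import Mathlib
import Pool.Agent.Helper917.ToepDefs
import Pool.Agent.Helper917.ToepScalar
import Pool.Agent.Helper917.ToepData
import Pool.Agent.Helper917.Comm
import Pool.Agent.Helper917.SepNec
import Pool.Agent.Helper917.Gelfand
import Pool.Agent.Helper917.Classif
import Pool.Agent.Helper917.TopSep
import Pool.Agent.Helper917.AlgTop

set_option autoImplicit false

open scoped Matrix ComplexConjugate
open Pool.Agent.Helper917 WeakDual

universe u

namespace Pool.Agent.Results.MP_05e9ba_an.Classification

/-- The scalar extension behaviour: for every `d ≥ 1`, a finite subset of `ℤ^d` has the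
`ℂ`-extension property if and only if it has the `A`-extension property. -/
def ScalarBehaviour (A : Type u) [NonUnitalCStarAlgebra A] : Prop :=
  ∀ d : ℕ, 1 ≤ d → ∀ S : Finset (Fin d → ℤ), (HasExt ℂ S ↔ HasExt A S)

/-- The L-shaped set `{0, e₁, e₂}` has the complex extension property. -/
lemma scalar_ext : HasExt ℂ ({0, ![1, 0], ![0, 1]} : Finset (Fin 2 → ℤ)) := by
  apply hasExt_complex_three
  intro α β hα hβ
  have hα0 : α ≠ 0 := by rintro rfl; simp at hα
  have hβ0 : β ≠ 0 := by rintro rfl; simp at hβ
  have hcα : conj α = α⁻¹ := by rw [Complex.inv_def, hα]; simp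
  have hcβ : conj β = β⁻¹ := by rw [Complex.inv_def, hβ]; simp
  refine ⟨fun g => α ^ g 0 * β ^ g 1, ?_, by simp, by simp, by simp⟩
  intro i j
  simp only [Pi.sub_apply, map_mul, map_zpow₀, hcα, hcβ, inv_zpow', zpow_sub₀ hα0,
    zpow_sub₀ hβ0, zpow_neg]
  field_simp

lemma generic_two : Generic (![1, 0] : Fin 2 → ℤ) ![0, 1] := by
  unfold Generic tri
  decide

lemma generic_three : Generic (![1, 0] : Fin 2 → ℤ) (3 • ![1, 0]) := by
  unfold Generic tri
  decide

/-- A C*-algebra has the scalar extension behaviour if and only if it is nonzero, commutative,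
and disjoint open sigma-compact subsets of its spectrum have disjoint closures. -/
theorem result (A : Type u) [NonUnitalCStarAlgebra A] :
    ScalarBehaviour A ↔
      Nontrivial A ∧ (∀ x y : A, x * y = y * x) ∧
        ∀ U V : Set (characterSpace ℂ A), IsOpen U → IsSigmaCompact U → IsOpen V →
          IsSigmaCompact V → Disjoint U V → Disjoint (closure U) (closure V) := by
  classical
  constructor
  · intro H
    obtain ⟨h1, h2, h3⟩ := (classification_aux (A := A) generic_two scalar_ext _
      generic_three).1 (H 2 (by norm_num))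
    exact ⟨h1, h2, (algSep_iff_sigmaSep A h2).1 h3⟩
  · rintro ⟨h1, h2, h3⟩ d - S
    have h4 : AlgSep A := (algSep_iff_sigmaSep A h2).2 h3
    obtain ⟨Ω, _, _, _, p, Φ, hΦi, hΦp, hΦs⟩ := exists_gelfand A h2
    constructor
    · exact hasExt_of_sepAt Φ hΦi hΦp hΦs ((sepAt_iff_algSep Φ hΦi hΦp hΦs).2 h4) S
    · obtain ⟨y, hy⟩ := exists_ne (0 : A)
      have h1 : Φ y ≠ 0 := fun h => hy (hΦi (by rw [h, map_zero]))
      obtain ⟨x, hx⟩ : ∃ x, Φ y x ≠ 0 := by
        by_contra hcon
        push Not at hcon
        exact h1 (by ext x; simpa using hcon x)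
      exact hasExt_complex_of_character
        (((ContinuousMap.evalStarAlgHom ℂ ℂ x).toNonUnitalStarAlgHom).comp Φ) y hx S

end Pool.Agent.Results.MP_05e9ba_an.Classification
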